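import Pool.Agent.W823.QT.Stm

set_option autoImplicit false

/-! Project QT: irreducible sets of arcs are rare. -/

namespace Pool.Agent.W308.QTIRS

open Finset Pool.Agent.W823.QT
open scoped ENNReal NNReal

theorem EE_mono (ε : ℕ → ℝ≥0∞) (n : ℕ) (f g : Finset (ℕ × ℕ) → ℝ≥0∞)
    (h : ∀ S, S ⊆ arcs n → f S ≤ g S) : EE ε n f ≤ EE ε n g := by
  unfold EE wsum
  apply ENNReal.div_le_div_right
  apply sum_le_sum
  intro S hS
  exact mul_le_mul_right (h S (mem_powerset.1 hS)) _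

theorem EE_sum (ε : ℕ → ℝ≥0∞) (n : ℕ) (s : Finset ℕ) (c : ℕ → ℝ≥0∞)
    (f : ℕ → Finset (ℕ × ℕ) → ℝ≥0∞) :
    EE ε n (fun S => ∑ i ∈ s, c i * f i S) = ∑ i ∈ s, c i * EE ε n (f i) := by
  unfold EE wsum
  simp only [mul_sum, div_eq_mul_inv, sum_mul]
  rw [sum_comm]
  apply sum_congr rfl
  intro i _
  apply sum_congr rfl
  intro S _
  ring

theorem Z_ne_top (ε : ℕ → ℝ≥0∞) (hε : ∀ k, ε k ≠ ∞) (n : ℕ) :
    ∏ e ∈ arcs n, (1 + lw ε e) ≠ ∞ := by
  apply ENNReal.prod_ne_top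
  intro e _
  exact ENNReal.add_ne_top.2 ⟨ENNReal.one_ne_top, hε _⟩

theorem Z_ne_zero (ε : ℕ → ℝ≥0∞) (n : ℕ) : ∏ e ∈ arcs n, (1 + lw ε e) ≠ 0 := by
  rw [prod_ne_zero_iff]
  intro e _ h
  have : (1 : ℝ≥0∞) ≤ 1 + lw ε e := le_self_add
  rw [h] at this
  exact absurd this (by simp)

theorem EE_one (ε : ℕ → ℝ≥0∞) (hε : ∀ k, ε k ≠ ∞) (n : ℕ) (f : Finset (ℕ × ℕ) → ℝ≥0∞)
    (hf : ∀ S, f S = 1) : EE ε n f = 1 := by
  unfold EE wsum
  have h1 : ∑ S ∈ (arcs n).powerset, (∏ e ∈ S, lw ε e) * f S = ∏ e ∈ arcs n, (1 + lw ε e) := by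
    rw [Finset.prod_one_add]
    apply sum_congr rfl
    intro S _
    rw [hf, mul_one]
  rw [h1, ENNReal.div_self (Z_ne_zero ε n) (Z_ne_top ε hε n)]

theorem shift (ε : ℕ → ℝ≥0∞) (l : ℕ) (e : ℕ × ℕ) : lw ε (e.1 + l, e.2 + l) = lw ε e := by
  unfold lw
  congr 1
  omega

/-- pathwise inequality -/
theorem pathwise (N : ℕ) (S : Finset (ℕ × ℕ)) :
    ∑ l ∈ Icc 2 N, (l : ℝ≥0∞) * ind (Irr l S ∧ ∀ e ∈ S, ¬ (e.1 < l ∧ l < e.2)) ≤
      ∑ a ∈ Icc 1 (N - 1), 2 * ind (Irr (a + 1) S) := by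
  classical
  by_cases hex : ∃ T ∈ Icc 2 N, Irr T S ∧ ∀ e ∈ S, ¬ (e.1 < T ∧ T < e.2)
  · obtain ⟨T, hT, hI, hu⟩ := hex
    rw [mem_Icc] at hT
    have h1 : ∑ l ∈ Icc 2 N, (l : ℝ≥0∞) * ind (Irr l S ∧ ∀ e ∈ S, ¬ (e.1 < l ∧ l < e.2)) = T := by
      rw [sum_eq_single T]
      · unfold ind
        rw [if_pos ⟨hI, hu⟩, mul_one]
      · intro l hl hlT
        rw [mem_Icc] at hl
        unfold ind
        rw [if_neg, mul_zero]
        rintro ⟨hI', hu'⟩
        rcases lt_or_gt_of_ne hlT with h | h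
        · obtain ⟨e, he, h2⟩ := hI l (by omega) h
          exact hu' e he h2
        · obtain ⟨e, he, h2⟩ := hI' T (by omega) h
          exact hu e he h2
      · intro h
        exact absurd (mem_Icc.2 hT) h
    rw [h1]
    have h2 : ∀ a ∈ Icc 1 (T - 1), (2 : ℝ≥0∞) * ind (Irr (a + 1) S) = 2 := by
      intro a ha
      rw [mem_Icc] at ha
      unfold ind
      rw [if_pos, mul_one]
      intro v hv hva
      exact hI v hv (by omega)
    have h3 : ∑ a ∈ Icc 1 (T - 1), (2 : ℝ≥0∞) * ind (Irr (a + 1) S) ≤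
        ∑ a ∈ Icc 1 (N - 1), 2 * ind (Irr (a + 1) S) :=
      sum_le_sum_of_subset (Icc_subset_Icc le_rfl (by omega))
    refine le_trans ?_ h3
    rw [sum_congr rfl h2, sum_const, Nat.card_Icc, nsmul_eq_mul]
    have h4 : T ≤ (T - 1 + 1 - 1) * 2 := by omega
    exact_mod_cast h4
  · have h1 : ∀ l ∈ Icc 2 N, (l : ℝ≥0∞) * ind (Irr l S ∧ ∀ e ∈ S, ¬ (e.1 < l ∧ l < e.2)) = 0 := by
      intro l hl
      unfold ind
      rw [if_neg, mul_zero]
      exact fun h => hex ⟨l, hl, h⟩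
    rw [sum_congr rfl h1]
    simp

theorem main (h1 : RENT_T) (h2 : RUN_T) (h3 : RUNB_T) (h4 : SPL_T) (h5 : CRS_T) : IRS_T := by
  classical
  intro ε hε N
  rcases Nat.lt_or_ge N 2 with hN | hN
  · rw [Icc_eq_empty (by omega)]
    simp
  -- the comparison of the systems with `l` and `N` vertices
  have hA : ∀ l ∈ Icc 2 N, EE ε l (fun S => ind (Irr l S)) ≤
      (8 / 7) * EE ε N (fun S => ind (Irr l S ∧ ∀ e ∈ S, ¬ (e.1 < l ∧ l < e.2))) := by
    intro l hl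
    rw [mem_Icc] at hl
    have e1 : EE ε N (fun S => ind (Irr l S ∧ ∀ e ∈ S, ¬ (e.1 < l ∧ l < e.2))) =
        kk (lw ε) l * (∏ e ∈ arcs (N - l), (1 + lw ε e)) / ∏ e ∈ arcs N, (1 + lw ε e) := by
      unfold EE
      rw [h1 (lw ε) N l (by omega) hl.2]
      simp only [shift]
    have e2 : EE ε l (fun S => ind (Irr l S)) = kk (lw ε) l / ∏ e ∈ arcs l, (1 + lw ε e) := rfl
    have e3 : ∏ e ∈ arcs N, (1 + lw ε e) ≤ (∏ e ∈ arcs l, (1 + lw ε e)) *
        (∏ e ∈ arcs (N - l), (1 + lw ε e)) * (8 / 7) := by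
      rw [h4 (lw ε) N l hl.2]
      simp only [shift]
      exact mul_le_mul_right (h5 ε hε N l) _
    rw [e1, e2]
    set Zl := ∏ e ∈ arcs l, (1 + lw ε e) with hZl
    set ZN := ∏ e ∈ arcs N, (1 + lw ε e) with hZN
    set Zm := ∏ e ∈ arcs (N - l), (1 + lw ε e) with hZm
    apply ENNReal.div_le_of_le_mul
    have hN0 : ZN ≠ 0 := Z_ne_zero ε N
    have hNt : ZN ≠ ∞ := Z_ne_top ε hε.1 N
    calc kk (lw ε) l = kk (lw ε) l * (ZN / ZN) := by rw [ENNReal.div_self hN0 hNt, mul_one]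
      _ = kk (lw ε) l * ZN * ZN⁻¹ := by rw [div_eq_mul_inv]; ring
      _ ≤ kk (lw ε) l * (Zl * Zm * (8 / 7)) * ZN⁻¹ := by gcongr
      _ = 8 / 7 * (kk (lw ε) l * Zm / ZN) * Zl := by rw [div_eq_mul_inv (kk (lw ε) l * Zm)]; ring
  -- the run
  have hB := h2 ε hε N (fun a S => a < N ∧ Irr (a + 1) S) (by
    intro a S
    constructor
    · rintro ⟨ha, hI⟩
      refine ⟨ha, fun v hv hva => ?_⟩
      obtain ⟨e, he, he1, he2⟩ := hI v hv hva
      exact ⟨e, mem_filter.2 ⟨he, by omega⟩, he1, he2⟩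
    · rintro ⟨ha, hI⟩
      refine ⟨ha, fun v hv hva => ?_⟩
      obtain ⟨e, he, he1, he2⟩ := hI v hv hva
      exact ⟨e, (mem_filter.1 he).1, he1, he2⟩) (by
    intro S hS
    convert h3 N S hS)
  have hC : ∑ a ∈ Icc 1 (N - 1), EE ε N (fun S => ind (Irr (a + 1) S)) ≤ 1 / 7 := by
    have e1 : ∑ a ∈ range (N + 1), EE ε N (fun S => ind (a < N ∧ Irr (a + 1) S)) =
        ∑ a ∈ range N, EE ε N (fun S => ind (a + 1 < N ∧ Irr (a + 1 + 1) S)) + 1 := by
      rw [sum_range_succ']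
      congr 1
      apply EE_one ε hε.1 N
      intro S
      unfold ind
      rw [if_pos]
      exact ⟨by omega, fun v hv hv1 => by omega⟩
    rw [e1] at hB
    have e2 : (8 / 7 : ℝ≥0∞) = 1 / 7 + 1 := by
      have h7 : (7 : ℝ≥0∞) / 7 = 1 := ENNReal.div_self (by norm_num) (by norm_num)
      calc (8 / 7 : ℝ≥0∞) = (1 + 7) / 7 := by norm_num
        _ = 1 / 7 + 7 / 7 := ENNReal.div_add_div_same.symm
        _ = 1 / 7 + 1 := by rw [h7]
    rw [e2] at hB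
    have e3 := (ENNReal.add_le_add_iff_right ENNReal.one_ne_top).1 hB
    refine le_trans ?_ e3
    have e4 : Icc 1 (N - 1) = Ico 1 N := by
      ext x
      rw [mem_Icc, mem_Ico]
      omega
    rw [e4, sum_Ico_eq_sum_range]
    calc ∑ a ∈ range (N - 1), EE ε N (fun S => ind (Irr (1 + a + 1) S))
        ≤ ∑ a ∈ range (N - 1), EE ε N (fun S => ind (a + 1 < N ∧ Irr (a + 1 + 1) S)) := by
          apply sum_le_sum
          intro a ha
          rw [mem_range] at ha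
          apply EE_mono
          intro S _
          have e5 : (a + 1 < N ∧ Irr (a + 1 + 1) S) ↔ Irr (1 + a + 1) S := by
            rw [Nat.add_comm 1 a]
            constructor
            · exact fun h => h.2
            · exact fun h => ⟨by omega, h⟩
          show ind (Irr (1 + a + 1) S) ≤ ind (a + 1 < N ∧ Irr (a + 1 + 1) S)
          rw [propext e5]
      _ ≤ _ := sum_le_sum_of_subset (range_subset_range.2 (by omega))
  calc ∑ l ∈ Icc 2 N, (l : ℝ≥0∞) * EE ε l (fun S => ind (Irr l S))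
      ≤ ∑ l ∈ Icc 2 N, (l : ℝ≥0∞) * ((8 / 7) *
          EE ε N (fun S => ind (Irr l S ∧ ∀ e ∈ S, ¬ (e.1 < l ∧ l < e.2)))) := by
        apply sum_le_sum
        intro l hl
        exact mul_le_mul_right (hA l hl) _
    _ = (8 / 7) * EE ε N (fun S => ∑ l ∈ Icc 2 N,
          (l : ℝ≥0∞) * ind (Irr l S ∧ ∀ e ∈ S, ¬ (e.1 < l ∧ l < e.2))) := by
        rw [EE_sum ε N (Icc 2 N) (fun l => (l : ℝ≥0∞)), mul_sum]
        apply sum_congr rfl
        intro l _
        ring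
    _ ≤ (8 / 7) * EE ε N (fun S => ∑ a ∈ Icc 1 (N - 1), 2 * ind (Irr (a + 1) S)) := by
        apply mul_le_mul_right
        apply EE_mono
        intro S _
        exact pathwise N S
    _ = (8 / 7) * (2 * ∑ a ∈ Icc 1 (N - 1), EE ε N (fun S => ind (Irr (a + 1) S))) := by
        rw [EE_sum ε N (Icc 1 (N - 1)) (fun _ => 2), ← mul_sum]
    _ ≤ (8 / 7) * (2 * (1 / 7)) := by gcongr
    _ ≤ 1 / 2 := by
        rw [← ENNReal.toReal_le_toReal]
        · simp only [ENNReal.toReal_mul, ENNReal.toReal_div, ENNReal.toReal_ofNat,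
            ENNReal.toReal_one]
          norm_num
        · refine ENNReal.mul_ne_top (ENNReal.div_ne_top (by norm_num) (by norm_num)) ?_
          exact ENNReal.mul_ne_top (by norm_num) (ENNReal.div_ne_top (by norm_num) (by norm_num))
        · exact ENNReal.div_ne_top (by norm_num) (by norm_num)

end Pool.Agent.W308.QTIRS
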