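import Mathlib
import Pool.Agent.W31.QT.Defs

/-!
QT-B': reflection of a simple polytope.
-/

open Finset

namespace Pool.Agent.W308.QT.TB1

open Pool.Agent.W31.QT

variable {n : ℕ}

/-- signs -/
def eps (z j : Fin n) : ℝ := if j = z then -1 else 1

theorem eps_mul (z j : Fin n) : eps z j * eps z j = 1 := by
  unfold eps
  split_ifs <;> norm_num

theorem eps_abs (z j : Fin n) : |eps z j| = 1 := by
  unfold eps
  split_ifs <;> norm_num

/-- reflection -/
def rf (z : Fin n) : (Fin n → ℝ) →ₗ[ℝ] (Fin n → ℝ) where
  toFun x := fun j => eps z j * x j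
  map_add' x y := by funext j; simp; ring
  map_smul' c x := by funext j; simp; ring

theorem rf_apply (z : Fin n) (x : Fin n → ℝ) (j : Fin n) : rf z x j = eps z j * x j := rfl

theorem rf_rf (z : Fin n) (x : Fin n → ℝ) : rf z (rf z x) = x := by
  funext j
  rw [rf_apply, rf_apply, ← mul_assoc, eps_mul, one_mul]

theorem rf_dot (z : Fin n) (x y : Fin n → ℝ) : (rf z x) ⬝ᵥ y = x ⬝ᵥ (rf z y) := by
  unfold dotProduct
  apply sum_congr rfl
  intro j _
  rw [rf_apply, rf_apply]
  ring

theorem rf_inj (z : Fin n) : LinearMap.ker (rf z) = ⊥ := by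
  rw [LinearMap.ker_eq_bot]
  intro x y h
  rw [← rf_rf z x, h, rf_rf]

/-- reflected polytope -/
def refl (z : Fin n) (P : SimplePolytope n) : SimplePolytope n where
  m := P.m
  a := fun i => rf z (P.a i)
  b := P.b
  bounded := by
    have h := P.bounded
    rw [isBounded_iff_forall_norm_le] at h ⊢
    obtain ⟨C, hC⟩ := h
    refine ⟨C, fun x hx => ?_⟩
    have h1 : ‖rf z x‖ ≤ C := by
      apply hC
      intro i
      have := hx i
      rw [rf_dot] at this
      exact this
    refine le_trans ?_ h1
    rw [pi_norm_le_iff_of_nonneg (norm_nonneg _)]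
    intro j
    have h2 := norm_le_pi_norm (rf z x) j
    rw [rf_apply, norm_mul, Real.norm_eq_abs, eps_abs, one_mul] at h2
    exact h2
  full := by
    obtain ⟨x, hx⟩ := P.full
    refine ⟨rf z x, fun i => ?_⟩
    rw [rf_dot, rf_rf]
    exact hx i
  facet := by
    intro i
    obtain ⟨x, hx, hx2⟩ := P.facet i
    refine ⟨rf z x, ?_, fun j hj => ?_⟩
    · rw [rf_dot, rf_rf]
      exact hx
    · rw [rf_dot, rf_rf]
      exact hx2 j hj
  simple := by
    intro x hx
    have h1 := P.simple (rf z x) (fun i => by
      have := hx i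
      rw [rf_dot] at this
      exact this)
    have h2 := h1.map' (rf z) (rf_inj z)
    have h3 := h2.comp (fun i : {i : Fin P.m // rf z (P.a i) ⬝ᵥ x + P.b i = 0} =>
      (⟨i.1, by
        have := i.2
        rw [rf_dot] at this
        exact this⟩ : {i : Fin P.m // P.a i ⬝ᵥ (rf z x) + P.b i = 0})) (by
        intro i j hij
        apply Subtype.ext
        have := congrArg Subtype.val hij
        exact this)
    exact h3

theorem done : TaskB' := by
  intro n hn P
  classical
  set z : Fin n := ⟨0, hn⟩ with hz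
  refine ⟨refl z P, rfl, ?_⟩
  intro f
  constructor
  · unfold SimplePolytope.verts
    rw [mem_filter, mem_filter]
    constructor
    · rintro ⟨-, h1, x, h2, h3⟩
      refine ⟨mem_univ _, h1, rf z x, fun i => ?_, fun i => ?_⟩
      · have := h2 i
        change 0 ≤ rf z (P.a i) ⬝ᵥ x + P.b i at this
        rw [rf_dot] at this
        exact this
      · have := h3 i
        change rf z (P.a (f i)) ⬝ᵥ x + P.b (f i) = 0 at this
        rw [rf_dot] at this
        exact this
    · rintro ⟨-, h1, x, h2, h3⟩
      refine ⟨mem_univ _, h1, rf z x, fun i => ?_, fun i => ?_⟩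
      · change 0 ≤ rf z (P.a i) ⬝ᵥ rf z x + P.b i
        rw [rf_dot, rf_rf]
        exact h2 i
      · change rf z (P.a (f i)) ⬝ᵥ rf z x + P.b (f i) = 0
        rw [rf_dot, rf_rf]
        exact h3 i
  · unfold SimplePolytope.vsign
    have h1 : (Matrix.of fun i => (refl z P).a (f i)) =
        (Matrix.of fun i => P.a (Fin.cast rfl (f i))) * Matrix.diagonal (eps z) := by
      ext i j
      rw [Matrix.mul_diagonal]
      change eps z j * P.a (f i) j = P.a (f i) j * eps z j
      ring
    have h2 : ∏ j, eps z j = -1 := by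
      unfold eps
      rw [prod_ite_eq' univ z (fun _ => (-1 : ℝ))]
      simp
    rw [h1, Matrix.det_mul, Matrix.det_diagonal, h2, mul_neg_one, Left.sign_neg, SignType.coe_neg]
    rfl

end Pool.Agent.W308.QT.TB1
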