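import Mathlib
import Pool.Agent.W31.QT.Defs

/-!
QT-C: reading the fixed point class off the chain.
-/

open Finset

namespace Pool.Agent.W308.QT.TC

open Pool.Agent.W31.QT

variable {n : ℕ}

open Classical in
/-- the function on tuples -/
noncomputable def F (p : Fin n → (Fin n → ℤ)) : Multiset (Fin n → ℤ) →₀ ℤ :=
  if IsUnit (Matrix.of p).det then
    Finsupp.single (rows ((Matrix.of p).transpose)⁻¹) (Matrix.of p).det else 0

theorem rows_perm (A : Matrix (Fin n) (Fin n) ℤ) (σ : Equiv.Perm (Fin n)) :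
    rows (A.submatrix σ id) = rows A := by
  unfold rows
  have h0 : ((Finset.univ : Finset (Fin n)).val.map σ).map (fun i => (A i : Fin n → ℤ)) =
      (Finset.univ : Finset (Fin n)).val.map (fun i => (A (σ i) : Fin n → ℤ)) := by
    rw [Multiset.map_map]
    rfl
  have h1 := h0
  rw [Multiset.map_univ_val_equiv] at h1
  exact h1.symm

theorem F_swap (p : Fin n → (Fin n → ℤ)) {i j : Fin n} (hij : i ≠ j) :
    F (p ∘ Equiv.swap i j) = - F p := by
  classical
  have h1 : Matrix.of (p ∘ Equiv.swap i j) = (Matrix.of p).submatrix (Equiv.swap i j) id := rfl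
  have h2 : ((Matrix.of p).submatrix (Equiv.swap i j) id).det = - (Matrix.of p).det := by
    rw [Matrix.det_permute, Equiv.Perm.sign_swap hij]
    simp
  have h3 : rows ((((Matrix.of p).submatrix (Equiv.swap i j) id).transpose)⁻¹) =
      rows (((Matrix.of p).transpose)⁻¹) := by
    rw [Matrix.transpose_submatrix]
    have := Matrix.inv_submatrix_equiv ((Matrix.of p).transpose) (Equiv.refl (Fin n))
      (Equiv.swap i j)
    have h4 : ((Matrix.of p).transpose).submatrix id (Equiv.swap i j) =
        ((Matrix.of p).transpose).submatrix (Equiv.refl (Fin n)) (Equiv.swap i j) := rfl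
    rw [h4, this]
    exact rows_perm _ _
  unfold F
  rw [h1, h2, h3]
  by_cases hu : IsUnit (Matrix.of p).det
  · rw [if_pos hu, if_pos hu.neg, Finsupp.single_neg]
  · rw [if_neg hu, if_neg (by rwa [IsUnit.neg_iff]), neg_zero]

theorem F_eq (p : Fin n → (Fin n → ℤ)) {i j : Fin n} (hij : i ≠ j) (h : p i = p j) : F p = 0 := by
  classical
  unfold F
  rw [Matrix.det_zero_of_row_eq hij (M := Matrix.of p) h, if_neg (by simp)]

/-- the multilinear map -/
noncomputable def G (n : ℕ) : MultilinearMap ℤ (fun _ : Fin n => ((Fin n → ℤ) →₀ ℤ))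
    (Multiset (Fin n → ℤ) →₀ ℤ) := by
  classical
  exact (MultilinearMap.fromDFinsuppEquiv (fun _ : Fin n => (Fin n → ℤ)) ℤ
    (M := fun _ _ => ℤ) (N := Multiset (Fin n → ℤ) →₀ ℤ)
    (fun p => MultilinearMap.mkPiRing ℤ (Fin n) (F p))).compLinearMap
    (fun _ => (finsuppLequivDFinsupp ℤ).toLinearMap)

theorem G_single (x : Fin n → (Fin n → ℤ)) :
    G n (fun i => Finsupp.single (x i) 1) = F x := by
  classical
  unfold G
  rw [MultilinearMap.compLinearMap_apply]
  have h : (fun i : Fin n => (finsuppLequivDFinsupp ℤ).toLinearMap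
      (Finsupp.single (x i) (1 : ℤ))) = fun i => DFinsupp.single (x i) (1 : ℤ) := by
    funext i
    simp [finsuppLequivDFinsupp]
  rw [h, MultilinearMap.fromDFinsuppEquiv_single, MultilinearMap.mkPiRing_apply]
  simp

theorem G_apply (v : Fin n → ((Fin n → ℤ) →₀ ℤ)) :
    G n v = ∑ p ∈ Fintype.piFinset (fun i => (v i).support), (∏ i, v i (p i)) • F p := by
  classical
  unfold G
  rw [MultilinearMap.compLinearMap_apply, MultilinearMap.fromDFinsuppEquiv_apply]
  have h : ∀ i, ((finsuppLequivDFinsupp ℤ).toLinearMap (v i) : Π₀ _ : (Fin n → ℤ), ℤ).support =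
      (v i).support := by
    intro i
    ext a
    simp [finsuppLequivDFinsupp]
  simp only [h]
  apply sum_congr rfl
  intro p _
  rw [MultilinearMap.mkPiRing_apply]
  rfl

theorem G_alt (v : Fin n → ((Fin n → ℤ) →₀ ℤ)) (i j : Fin n) (h : v i = v j) (hij : i ≠ j) :
    G n v = 0 := by
  classical
  rw [G_apply]
  have hv : ∀ k, v (Equiv.swap i j k) = v k := by
    intro k
    by_cases h1 : k = i
    · rw [h1, Equiv.swap_apply_left, h]
    · by_cases h2 : k = j
      · rw [h2, Equiv.swap_apply_right, h]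
      · rw [Equiv.swap_apply_of_ne_of_ne h1 h2]
  refine sum_involution (fun p _ => p ∘ Equiv.swap i j) ?_ ?_ ?_ ?_
  · intro p _
    rw [F_swap p hij]
    have : ∏ k, v k ((p ∘ Equiv.swap i j) k) = ∏ k, v k (p k) := by
      calc ∏ k, v k ((p ∘ Equiv.swap i j) k) = ∏ k, v (Equiv.swap i j k) (p (Equiv.swap i j k)) := by
            apply prod_congr rfl
            intro k _
            rw [hv]
            rfl
        _ = ∏ k, v k (p k) := Equiv.prod_comp (Equiv.swap i j) (fun k => v k (p k))
    rw [this, smul_neg, add_neg_cancel]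
  · intro p _ hne heq
    apply hne
    have h1 : p i = p j := by
      have := congrFun heq i
      simp only [Function.comp, Equiv.swap_apply_left] at this
      exact this.symm
    rw [F_eq p hij h1, smul_zero]
  · intro p hp
    rw [Fintype.mem_piFinset] at hp ⊢
    intro k
    have := hp (Equiv.swap i j k)
    rw [hv] at this
    exact this
  · intro p _
    funext k
    simp [Function.comp]

/-- the alternating map -/
noncomputable def A (n : ℕ) : ((Fin n → ℤ) →₀ ℤ) [⋀^Fin n]→ₗ[ℤ] (Multiset (Fin n → ℤ) →₀ ℤ) :=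
  { G n with
    map_eq_zero_of_eq' := fun v i j h hij => G_alt v i j h hij }

theorem done : TaskC := by
  intro n
  classical
  refine ⟨ExteriorAlgebra.liftAlternating (Function.update
    (fun i => (0 : ((Fin n → ℤ) →₀ ℤ) [⋀^Fin i]→ₗ[ℤ] (Multiset (Fin n → ℤ) →₀ ℤ))) n (A n)), ?_⟩
  intro l hl
  have h1 : pr (List.ofFn fun i => l i) =
      ExteriorAlgebra.ιMulti ℤ n (fun i => Finsupp.single (l i) (1 : ℤ)) := by
    unfold pr
    rw [ExteriorAlgebra.ιMulti_apply, List.map_ofFn]
    rfl
  rw [h1, ExteriorAlgebra.liftAlternating_apply_ιMulti, Function.update_self]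
  refine (G_single (fun i => (l i : Fin n → ℤ))).trans ?_
  unfold F
  rw [if_pos (show IsUnit (Matrix.of fun i => (l i : Fin n → ℤ)).det from hl)]
  rfl

end Pool.Agent.W308.QT.TC
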